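import Pool.Agent.Helper21.DN.Stmts

set_option autoImplicit false

namespace Pool.Agent.Helper21.DN

universe u

theorem cyc_mono {G : Type u} [Group G] [Finite G] {s : G → ℕ} (hs : RF s) {h h' : G}
    (hm : h' ∈ Subgroup.zpowers h) (hne : h' ≠ 1) : s h ≤ s h' := by
  obtain ⟨m, hm⟩ := mem_powers_iff_mem_zpowers.2 hm
  have hm1 : h ^ m = h' := hm
  have hpos : 0 < orderOf h := orderOf_pos h
  have hm' : h ^ (m % orderOf h) = h' := by rw [pow_mod_orderOf, hm1]
  have hlt : m % orderOf h < orderOf h := Nat.mod_lt _ hpos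
  have h0 : m % orderOf h ≠ 0 := by
    intro h0
    rw [h0, pow_zero] at hm'
    exact hne hm'.symm
  have key : ∀ j, 1 ≤ j → j < orderOf h → s h ≤ s (h ^ j) := by
    intro j hj
    induction j, hj using Nat.le_induction with
    | base => intro _; rw [pow_one]
    | succ j hj ih =>
      intro hlt2
      have hne1 : h ^ j ≠ 1 := pow_ne_one_of_lt_orderOf (by omega) (by omega)
      have hne2 : h ≠ 1 := by
        intro hh
        rw [hh, orderOf_one] at hlt2
        omega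
      have hne3 : h ^ j * h ≠ 1 := by
        rw [← pow_succ]
        exact pow_ne_one_of_lt_orderOf (by omega) hlt2
      have := hs.mul _ _ hne1 hne2 hne3
      rw [← pow_succ] at this
      exact le_trans (le_min (ih (by omega)) le_rfl) this
  rw [← hm']
  exact key _ (Nat.one_le_iff_ne_zero.2 h0) hlt

theorem cyc_mem {p N : ℕ} [Fact p.Prime] {G : Type u} [Group G] {g : G} (hg : orderOf g = p ^ N)
    {a b u : ℕ} (hu : ¬ p ∣ u) (hab : a ≤ b) (hbN : b ≤ N) :
    g ^ p ^ b ∈ Subgroup.zpowers (g ^ (p ^ a * u)) := by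
  have hp : p.Prime := Fact.out
  have hcop : Nat.Coprime (p ^ (N - a)) u := Nat.Coprime.pow_left _ ((hp.coprime_iff_not_dvd).2 hu)
  have hgcd : (Int.gcd ((p ^ a * u : ℕ) : ℤ) ((p ^ N : ℕ) : ℤ)) = p ^ a := by
    rw [Int.gcd_natCast_natCast]
    have : p ^ N = p ^ a * p ^ (N - a) := by rw [← pow_add]; congr 1; omega
    rw [this, Nat.gcd_mul_left, Nat.Coprime.symm hcop, mul_one]
  have hd : (Int.gcd ((p ^ a * u : ℕ) : ℤ) ((p ^ N : ℕ) : ℤ)) ∣ p ^ b := by
    rw [hgcd]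
    exact pow_dvd_pow p hab
  obtain ⟨x, y, hxy⟩ := (Int.gcd_dvd_iff).1 hd
  refine ⟨x, ?_⟩
  change (g ^ (p ^ a * u)) ^ x = g ^ p ^ b
  rw [← zpow_natCast g (p ^ b), hxy, zpow_add, zpow_mul, zpow_natCast, zpow_mul, zpow_natCast,
    ← hg, pow_orderOf_eq_one, one_zpow, mul_one]

theorem cyc_eq {p N : ℕ} [Fact p.Prime] {G : Type u} [Group G] [Finite G] {s : G → ℕ}
    (hs : RF s) {g : G} (hg : orderOf g = p ^ N) {a u : ℕ} (hu : ¬ p ∣ u) (ha : a < N) :
    s (g ^ (p ^ a * u)) = s (g ^ p ^ a) := by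
  have hp : p.Prime := Fact.out
  have h1 : g ^ p ^ a ≠ 1 := pow_ne_one_of_lt_orderOf (pow_ne_zero _ hp.ne_zero) (by
    rw [hg]; exact Nat.pow_lt_pow_right hp.one_lt ha)
  have h2 : g ^ (p ^ a * u) ≠ 1 := by
    intro h
    have h3 := cyc_mem hg hu le_rfl ha.le (b := a)
    rw [h, Subgroup.zpowers_one_eq_bot, Subgroup.mem_bot] at h3
    exact h1 h3
  apply le_antisymm
  · exact cyc_mono hs (cyc_mem hg hu le_rfl ha.le) h1
  · refine cyc_mono hs ?_ h2
    rw [pow_mul]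
    exact Subgroup.npow_mem_zpowers _ _

theorem cyc_le {p N : ℕ} [Fact p.Prime] {G : Type u} [Group G] [Finite G] {s : G → ℕ}
    (hs : RF s) {g : G} (hg : orderOf g = p ^ N) {a b : ℕ} (hab : a ≤ b) (hb : b < N) :
    s (g ^ p ^ a) ≤ s (g ^ p ^ b) := by
  have hp : p.Prime := Fact.out
  refine cyc_mono hs ?_ (pow_ne_one_of_lt_orderOf (pow_ne_zero _ hp.ne_zero) (by
    rw [hg]; exact Nat.pow_lt_pow_right hp.one_lt hb))
  have : p ^ b = p ^ a * p ^ (b - a) := by rw [← pow_add]; congr 1; omega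
  rw [this, pow_mul]
  exact Subgroup.npow_mem_zpowers _ _

theorem cyc_dvd {p N : ℕ} [Fact p.Prime] {G : Type u} [Group G] [Finite G] {s : G → ℕ}
    (hs : RF s) {g : G} (hg : orderOf g = p ^ N)
    (hd : ∀ i j : ℕ, 1 ≤ i → i < p ^ N → 1 ≤ j → j < p ^ N →
      ((p ^ N : ℕ) : ℤ) ∣ ((i : ℤ) + s (g ^ i)) - ((j : ℤ) + s (g ^ j)) → i = j) :
    ∀ b a : ℕ, b < a → a < N →
      ((p : ℤ) ^ (b + 1)) ∣ (s (g ^ p ^ a) : ℤ) - s (g ^ p ^ b) := by
  have hp : p.Prime := Fact.out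
  intro b
  induction b with
  | zero =>
    intro a hab haN
    exact cyc_aux a 0 hab haN (by simp)
  | succ b ih =>
    intro a hab haN
    refine cyc_aux a (b + 1) hab haN ?_
    have h1 := ih a (by omega) haN
    have h2 := ih (b + 1) (by omega) (by omega)
    have := dvd_sub h1 h2
    rw [show (s (g ^ p ^ a) : ℤ) - s (g ^ p ^ b) - ((s (g ^ p ^ (b + 1)) : ℤ) - s (g ^ p ^ b)) =
      (s (g ^ p ^ a) : ℤ) - s (g ^ p ^ (b + 1)) by ring] at this
    exact this
where
  cyc_aux (a b : ℕ) (hab : b < a) (haN : a < N)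
      (hb : ((p : ℤ) ^ b) ∣ (s (g ^ p ^ a) : ℤ) - s (g ^ p ^ b)) :
      ((p : ℤ) ^ (b + 1)) ∣ (s (g ^ p ^ a) : ℤ) - s (g ^ p ^ b) := by
    have hp : p.Prime := Fact.out
    by_contra hcon
    set D : ℤ := (s (g ^ p ^ a) : ℤ) - s (g ^ p ^ b) with hD
    have hpN : (0 : ℤ) < (p : ℤ) ^ N := by
      have := hp.pos
      positivity
    obtain ⟨i, hi⟩ : ∃ i : ℕ, (i : ℤ) = (D + (p : ℤ) ^ a) % (p : ℤ) ^ N :=
      Int.eq_ofNat_of_zero_le (Int.emod_nonneg _ hpN.ne') |>.imp fun _ h => h.symm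
    have hilt : i < p ^ N := by
      have := Int.emod_lt_of_pos (D + (p : ℤ) ^ a) hpN
      rw [← hi] at this
      exact_mod_cast this
    have hmod : (p : ℤ) ^ N ∣ (i : ℤ) - (D + (p : ℤ) ^ a) := by
      rw [hi, Int.emod_def]
      exact ⟨-((D + (p : ℤ) ^ a) / (p : ℤ) ^ N), by ring⟩
    have hbi : ((p : ℤ) ^ b) ∣ (i : ℤ) := by
      have h1 : ((p : ℤ) ^ b) ∣ (i : ℤ) - (D + (p : ℤ) ^ a) :=
        (pow_dvd_pow _ (by omega)).trans hmod
      have h2 : ((p : ℤ) ^ b) ∣ D + (p : ℤ) ^ a := dvd_add hb (pow_dvd_pow _ hab.le)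
      have := dvd_add h1 h2
      simpa using this
    have hbi2 : ¬ ((p : ℤ) ^ (b + 1)) ∣ (i : ℤ) := by
      intro h
      apply hcon
      have h1 : ((p : ℤ) ^ (b + 1)) ∣ (i : ℤ) - (D + (p : ℤ) ^ a) :=
        (pow_dvd_pow _ (by omega)).trans hmod
      have h2 := dvd_sub h h1
      have h3 : ((p : ℤ) ^ (b + 1)) ∣ (p : ℤ) ^ a := pow_dvd_pow _ hab
      have := dvd_sub h2 h3
      rw [show (i : ℤ) - ((i : ℤ) - (D + (p : ℤ) ^ a)) - (p : ℤ) ^ a = D by ring] at this
      exact this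
    have hbi' : p ^ b ∣ i := by exact_mod_cast hbi
    obtain ⟨u, hu⟩ := hbi'
    have hpu : ¬ p ∣ u := by
      intro h
      apply hbi2
      have : p ^ (b + 1) ∣ i := by
        rw [hu, pow_succ]
        exact mul_dvd_mul_left _ h
      exact_mod_cast this
    have hi1 : 1 ≤ i := by
      rcases Nat.eq_zero_or_pos i with h | h
      · exfalso
        apply hbi2
        rw [h]
        simp
      · exact h
    have hsi : s (g ^ i) = s (g ^ p ^ b) := by
      rw [hu]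
      exact cyc_eq hs hg hpu (by omega)
    have := hd i (p ^ a) hi1 hilt (Nat.one_le_pow _ _ hp.pos)
      (Nat.pow_lt_pow_right hp.one_lt haN) (by
        rw [hsi]
        have h4 : ((i : ℤ) + s (g ^ p ^ b)) - (((p ^ a : ℕ) : ℤ) + s (g ^ p ^ a)) =
          (i : ℤ) - (D + (p : ℤ) ^ a) := by
          rw [hD]; push_cast; ring
        rw [h4]
        exact_mod_cast hmod)
    apply hbi2
    rw [this]
    push_cast
    exact pow_dvd_pow _ hab

theorem cyc_pure (p N : ℕ) [Fact p.Prime] (G : Type u) [Group G] [Fintype G] (s : G → ℕ)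
    (hs : RF s) (g : G) (hgen : ∀ σ : G, σ ∈ Subgroup.zpowers g)
    (hn : Fintype.card G = p ^ N) (hN : N ≠ 0)
    (hd : ∀ i j : ℕ, 1 ≤ i → i < p ^ N → 1 ≤ j → j < p ^ N →
      ((p ^ N : ℕ) : ℤ) ∣ ((i : ℤ) + s (g ^ i)) - ((j : ℤ) + s (g ^ j)) → i = j) :
    p ^ N ∣ S1 s + x0 s := by
  classical
  have hp : p.Prime := Fact.out
  have hg : orderOf g = p ^ N := by
    rw [← hn]
    exact orderOf_eq_card_of_forall_mem_zpowers hgen |>.trans Nat.card_eq_fintype_card
  haveI : NeZero (p ^ N) := ⟨pow_ne_zero _ hp.ne_zero⟩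
  -- the decomposition
  have hdec : ∀ i : ℕ, 1 ≤ i → i < p ^ N → ∃ a u : ℕ, a < N ∧ ¬ p ∣ u ∧ i = p ^ a * u := by
    intro i hi1 hi2
    obtain ⟨a, u, hu, hiu⟩ := Nat.exists_eq_pow_mul_and_not_dvd (by omega : i ≠ 0) p hp.ne_one
    refine ⟨a, u, ?_, hu, hiu⟩
    by_contra hcon
    have h1 : p ^ N ∣ i := by
      rw [hiu]
      exact (pow_dvd_pow _ (by omega)).mul_right _
    have := Nat.le_of_dvd (by omega) h1
    omega
  have hx0 : x0 s = s (g ^ p ^ (N - 1)) := by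
    apply le_antisymm
    · apply Finset.sup_le
      intro h hh
      rw [Finset.mem_filter] at hh
      obtain ⟨m, hm⟩ := mem_powers_iff_mem_zpowers.2 (hgen h)
      have hm1 : g ^ (m % p ^ N) = h := by
        rw [← hg, pow_mod_orderOf]
        exact hm
      have h1 : 1 ≤ m % p ^ N := by
        rcases Nat.eq_zero_or_pos (m % p ^ N) with h0 | h0
        · rw [h0, pow_zero] at hm1
          exact absurd hm1.symm hh.2
        · exact h0
      obtain ⟨a, u, ha, hu, hau⟩ := hdec _ h1 (Nat.mod_lt _ (NeZero.pos _))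
      rw [← hm1, hau, cyc_eq hs hg hu ha]
      exact cyc_le hs hg (by omega) (by omega)
    · apply Finset.le_sup (f := s)
      rw [Finset.mem_filter]
      exact ⟨Finset.mem_univ _, pow_ne_one_of_lt_orderOf (pow_ne_zero _ hp.ne_zero) (by
        rw [hg]; exact Nat.pow_lt_pow_right hp.one_lt (by omega))⟩
  have hval : ∀ i : ZMod (p ^ N), i ≠ 0 → 1 ≤ i.val := fun i hi =>
    Nat.one_le_iff_ne_zero.2 (fun h => hi ((ZMod.val_eq_zero i).1 h))
  let F : ZMod (p ^ N) → ZMod (p ^ N) := fun i =>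
    if i = 0 then ((x0 s : ℕ) : ZMod (p ^ N)) else i + ((s (g ^ i.val) : ℕ) : ZMod (p ^ N))
  have hF0 : F 0 = ((x0 s : ℕ) : ZMod (p ^ N)) := if_pos rfl
  have hF1 : ∀ i, i ≠ 0 → F i = i + ((s (g ^ i.val) : ℕ) : ZMod (p ^ N)) := fun i hi => if_neg hi
  have hFne : ∀ i, i ≠ 0 → F i ≠ F 0 := by
    intro i hi h
    rw [hF0, hF1 i hi, hx0] at h
    obtain ⟨a, u, ha, hu, hau⟩ := hdec i.val (hval i hi) (ZMod.val_lt i)
    rw [hau, cyc_eq hs hg hu ha] at h
    have h1 : ((p ^ N : ℕ) : ℤ) ∣ (i.val : ℤ) - ((s (g ^ p ^ (N - 1)) : ℤ) - s (g ^ p ^ a)) := by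
      rw [← ZMod.intCast_zmod_eq_zero_iff_dvd]
      push_cast
      rw [ZMod.natCast_zmod_val]
      rw [sub_sub_eq_add_sub, h]
      simp
    have h2 : (p : ℤ) ^ (a + 1) ∣ (s (g ^ p ^ (N - 1)) : ℤ) - s (g ^ p ^ a) := by
      rcases Nat.lt_or_ge a (N - 1) with h3 | h3
      · exact cyc_dvd hs hg hd a (N - 1) h3 (by omega)
      · have : a = N - 1 := by omega
        rw [this]
        simp
    have h3 : (p : ℤ) ^ (a + 1) ∣ (i.val : ℤ) := by
      have h4 : (p : ℤ) ^ (a + 1) ∣ (i.val : ℤ) - ((s (g ^ p ^ (N - 1)) : ℤ) - s (g ^ p ^ a)) := by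
        refine dvd_trans ?_ h1
        push_cast
        exact pow_dvd_pow _ (by omega)
      have := dvd_add h4 h2
      simpa using this
    have h5 : p ^ (a + 1) ∣ p ^ a * u := by
      rw [← hau]
      exact_mod_cast h3
    rw [pow_succ] at h5
    exact hu (Nat.dvd_of_mul_dvd_mul_left (pow_pos hp.pos _) h5)
  have hFinj : Function.Injective F := by
    intro i j hij
    by_cases hi : i = 0
    · by_cases hj : j = 0
      · rw [hi, hj]
      · rw [hi] at hij
        exact absurd hij.symm (hFne j hj)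
    · by_cases hj : j = 0
      · rw [hj] at hij
        exact absurd hij (hFne i hi)
      · rw [hF1 i hi, hF1 j hj] at hij
        apply ZMod.val_injective
        apply hd _ _ (hval i hi) (ZMod.val_lt i) (hval j hj) (ZMod.val_lt j)
        rw [← ZMod.intCast_zmod_eq_zero_iff_dvd]
        push_cast
        rw [ZMod.natCast_zmod_val, ZMod.natCast_zmod_val, hij, sub_self]
  have hFbij : Function.Bijective F := Finite.injective_iff_bijective.1 hFinj
  have hsum : ∑ i, F i = ∑ i : ZMod (p ^ N), i := hFbij.sum_comp (fun i => i)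
  have hsplit : ∑ i, F i = ((x0 s : ℕ) : ZMod (p ^ N)) + (∑ i : ZMod (p ^ N), i) +
      ∑ i : ZMod (p ^ N), (if i = 0 then 0 else ((s (g ^ i.val) : ℕ) : ZMod (p ^ N))) := by
    have h1 : ∀ i : ZMod (p ^ N), F i = (if i = 0 then ((x0 s : ℕ) : ZMod (p ^ N)) else 0) + i +
        (if i = 0 then 0 else ((s (g ^ i.val) : ℕ) : ZMod (p ^ N))) := by
      intro i
      by_cases hi : i = 0
      · rw [hi, hF0]; simp
      · rw [hF1 i hi, if_neg hi, if_neg hi, zero_add]
    rw [Finset.sum_congr rfl (fun i _ => h1 i), Finset.sum_add_distrib, Finset.sum_add_distrib]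
    simp
  have hbij : Function.Bijective (fun i : ZMod (p ^ N) => g ^ i.val) := by
    rw [Fintype.bijective_iff_injective_and_card]
    constructor
    · intro i j hij
      have := pow_inj_mod.1 hij
      rw [hg, Nat.mod_eq_of_lt (ZMod.val_lt i), Nat.mod_eq_of_lt (ZMod.val_lt j)] at this
      exact ZMod.val_injective _ this
    · rw [ZMod.card, hn]
  have hS1 : ((S1 s : ℕ) : ZMod (p ^ N)) =
      ∑ i : ZMod (p ^ N), (if i = 0 then 0 else ((s (g ^ i.val) : ℕ) : ZMod (p ^ N))) := by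
    have h1 : S1 s = ∑ h : G, (if h = 1 then 0 else s h) := by
      rw [S1, Finset.sum_filter]
      refine Finset.sum_congr rfl (fun h _ => ?_)
      by_cases hh : h = 1
      · simp [hh]
      · simp [hh]
    rw [h1, ← hbij.sum_comp (fun h => if h = 1 then 0 else s h)]
    push_cast
    refine Finset.sum_congr rfl (fun i _ => ?_)
    by_cases hi : i = 0
    · rw [if_pos hi, hi, ZMod.val_zero, pow_zero, if_pos rfl]
    · have h2 : g ^ i.val ≠ 1 := pow_ne_one_of_lt_orderOf (by have := hval i hi; omega) (by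
        rw [hg]; exact ZMod.val_lt i)
      rw [if_neg hi, if_neg h2]
  rw [← ZMod.natCast_eq_zero_iff]
  push_cast
  rw [hS1]
  rw [hsum] at hsplit
  have h9 : ∀ a b c : ZMod (p ^ N), a = b + a + c → c + b = 0 := by
    intro a b c h
    have h' : a - a = b + a + c - a := by rw [← h]
    rw [sub_self] at h'
    rw [show c + b = b + a + c - a by ring]
    exact h'.symm
  exact h9 _ _ _ hsplit

theorem st_CYC (h1 : ST_RFV.{u}) (_h2 : ST_BCH.{u}) (h3 : ST_DIST.{u}) : ST_CYC.{u} := by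
  intro p _ k K L _ _ _ _ _ _ _ κ v hR hP hcyc hnt
  obtain ⟨g, hg⟩ := hcyc.exists_generator
  obtain ⟨N, hN⟩ := IsPGroup.iff_card.1 hP
  have hcard : Fintype.card (L ≃ₐ[K] L) = p ^ N := by
    rw [← Nat.card_eq_fintype_card]; exact hN
  have hfr : p ^ N = Module.finrank K L := by
    rw [← hN]; exact IsGalois.card_aut_eq_finrank K L
  have hN0 : N ≠ 0 := by
    intro h
    rw [h, pow_zero] at hN
    have := Finite.one_lt_card_iff_nontrivial.2 hnt
    omega
  rw [hcard]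
  exact cyc_pure p N (L ≃ₐ[K] L) (fun σ => s v σ) (h1 p k K L κ v hR hP) g hg hcard hN0
    (h3 p k K L κ v hR hP g hg (p ^ N) hfr)

end Pool.Agent.Helper21.DN
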