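import Pool.Agent.Helper21.DN.Stmts

set_option autoImplicit false

namespace Pool.Agent.Helper21.DN

universe u

open scoped commutatorElement

/-- a normal subgroup of order `p` is central -/
theorem rk1_central {p : ℕ} [Fact p.Prime] {P : Type} [Group P] [Finite P] (hP : IsPGroup p P)
    (C : Subgroup P) [C.Normal] (hC : Nat.card C = p) : C ≤ Subgroup.center P := by
  classical
  letI : MulAction P C := MulAction.compHom C (MulAut.conjNormal : P →* MulAut C)
  have hact : ∀ (x : P) (c : C), ((x • c : C) : P) = x * c * x⁻¹ := fun x c =>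
    MulAut.conjNormal_apply x c
  have h1 : (1 : C) ∈ MulAction.fixedPoints P C := by
    intro x
    apply Subtype.ext
    rw [hact]
    simp
  obtain ⟨b, hb, hne⟩ := hP.exists_fixed_point_of_prime_dvd_card_of_fixed_point C
    (by rw [hC]) h1
  have hbc : (b : P) ∈ Subgroup.center P := by
    rw [Subgroup.mem_center_iff]
    intro x
    have := congrArg (Subtype.val) (hb x)
    rw [hact] at this
    calc x * (b : P) = x * b * x⁻¹ * x := by group
      _ = b * x := by rw [this]
  have hz : Subgroup.zpowers b = ⊤ := by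
    apply Subgroup.eq_top_of_card_eq
    rw [Nat.card_zpowers, hC]
    exact orderOf_eq_prime (by
      have := pow_card_eq_one' (x := b)
      rwa [hC] at this) (fun h => hne h.symm)
  intro c hc
  have : (⟨c, hc⟩ : C) ∈ Subgroup.zpowers b := by rw [hz]; exact Subgroup.mem_top _
  obtain ⟨m, hm⟩ := this
  have h2 : c = (b : P) ^ m := by
    have := congrArg Subtype.val hm
    simpa using this.symm
  rw [h2]
  exact Subgroup.zpow_mem _ hbc m

theorem rk1_normal {P : Type} [Group P] (B : Subgroup P) :
    (⁅B, (⊤ : Subgroup P)⁆ : Subgroup P).Normal := by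
  constructor
  intro n hn y
  have hle : (⁅B, (⊤ : Subgroup P)⁆ : Subgroup P) ≤
      (⁅B, (⊤ : Subgroup P)⁆ : Subgroup P).comap (MulAut.conj y).toMonoidHom := by
    rw [Subgroup.commutator_le]
    intro b hb x _
    rw [Subgroup.mem_comap]
    have e : (MulAut.conj y).toMonoidHom ⁅b, x⁆ = ⁅b, y⁆⁻¹ * ⁅b, y * x⁆ := by
      simp only [MulEquiv.toMonoidHom_eq_coe, MonoidHom.coe_coe, MulAut.conj_apply,
        commutatorElement_def]
      group
    rw [e]
    exact mul_mem (inv_mem (Subgroup.commutator_mem_commutator hb (Subgroup.mem_top _)))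
      (Subgroup.commutator_mem_commutator hb (Subgroup.mem_top _))
  have := hle hn
  simpa [Subgroup.mem_comap, MulAut.conj_apply] using this

theorem rk1_pow_add {p : ℕ} [Fact p.Prime] {P : Type} [Group P] {z : P} (hz : orderOf z = p)
    (a b : ZMod p) : z ^ (a + b).val = z ^ a.val * z ^ b.val := by
  rw [ZMod.val_add, ← pow_add]
  conv_rhs => rw [← pow_mod_orderOf, hz]

theorem rk1_pow_inj {p : ℕ} [Fact p.Prime] {P : Type} [Group P] {z : P} (hz : orderOf z = p)
    {a b : ZMod p} (h : z ^ a.val = z ^ b.val) : a = b := by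
  have := pow_inj_mod.1 h
  rw [hz, Nat.mod_eq_of_lt (ZMod.val_lt a), Nat.mod_eq_of_lt (ZMod.val_lt b)] at this
  exact ZMod.val_injective p this

/-- the bilinear pairing -/
theorem rk1_pair {p : ℕ} [Fact p.Prime] {P : Type} [Group P] [Finite P] (hP : IsPGroup p P)
    (B : Subgroup P) (hC : Nat.card (⁅B, (⊤ : Subgroup P)⁆ : Subgroup P) = p) :
    ∃ (z0 : P) (l : P → B → ZMod p), z0 ∈ Subgroup.center P ∧ orderOf z0 = p ∧
      (∀ (x : P) (b : B), x * b * x⁻¹ = z0 ^ (l x b).val * b) ∧
      (∀ x y b, l (x * y) b = l x b + l y b) ∧ (∀ x b c, l x (b * c) = l x b + l x c) ∧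
      (∃ x b, l x b ≠ 0) := by
  classical
  haveI := rk1_normal B
  have hcen := rk1_central hP _ hC
  haveI : Nontrivial (⁅B, (⊤ : Subgroup P)⁆ : Subgroup P) := by
    rw [← Finite.one_lt_card_iff_nontrivial, hC]
    exact (Fact.out : p.Prime).one_lt
  obtain ⟨w, hw⟩ := exists_ne (1 : (⁅B, (⊤ : Subgroup P)⁆ : Subgroup P))
  have how : orderOf w = p := orderOf_eq_prime (by
      have := pow_card_eq_one' (x := w)
      rwa [hC] at this) hw
  have hwt : Subgroup.zpowers w = ⊤ := by
    apply Subgroup.eq_top_of_card_eq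
    rw [Nat.card_zpowers, hC, how]
  have hz0 : orderOf (w : P) = p := by rw [Subgroup.orderOf_coe, how]
  have hzc : (w : P) ∈ Subgroup.center P := hcen w.2
  have hex : ∀ (x : P) (b : B), ∃ a : ZMod p, x * b * x⁻¹ = (w : P) ^ a.val * b := by
    intro x b
    have hm : ⁅x, (b : P)⁆ ∈ (⁅B, (⊤ : Subgroup P)⁆ : Subgroup P) := by
      rw [Subgroup.commutator_comm]
      exact Subgroup.commutator_mem_commutator (Subgroup.mem_top _) b.2
    have : (⟨_, hm⟩ : (⁅B, (⊤ : Subgroup P)⁆ : Subgroup P)) ∈ Subgroup.zpowers w := by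
      rw [hwt]; exact Subgroup.mem_top _
    rw [← mem_powers_iff_mem_zpowers] at this
    obtain ⟨m, hm'⟩ := this
    refine ⟨(m : ZMod p), ?_⟩
    have h2 : ⁅x, (b : P)⁆ = (w : P) ^ m := by
      have := congrArg Subtype.val hm'
      simpa using this.symm
    rw [commutatorElement_def] at h2
    rw [ZMod.val_natCast]
    have h3 : (w : P) ^ (m % p) = (w : P) ^ m := by
      rw [← hz0, pow_mod_orderOf]
    rw [h3, ← h2]
    group
  choose l hl using hex
  refine ⟨(w : P), l, hzc, hz0, hl, ?_, ?_, ?_⟩
  · intro x y b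
    apply rk1_pow_inj hz0
    rw [rk1_pow_add hz0]
    have e1 := hl (x * y) b
    have e2 := hl x b
    have e3 := hl y b
    have hc : ∀ m : ℕ, ∀ t : P, (w : P) ^ m * t = t * (w : P) ^ m := by
      intro m t
      exact ((Subgroup.mem_center_iff.1 (Subgroup.pow_mem _ hzc m)) t).symm
    have e4 : (w : P) ^ (l (x * y) b).val * b = (w : P) ^ (l x b).val * (w : P) ^ (l y b).val * b := by
      rw [← e1]
      calc x * y * (b : P) * (x * y)⁻¹ = x * (y * b * y⁻¹) * x⁻¹ := by group
        _ = x * ((w : P) ^ (l y b).val * b) * x⁻¹ := by rw [e3]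
        _ = (w : P) ^ (l y b).val * (x * b * x⁻¹) := by
            rw [← mul_assoc x, ← hc]
            group
        _ = (w : P) ^ (l x b).val * (w : P) ^ (l y b).val * b := by
            rw [e2, ← mul_assoc, hc]
    exact mul_right_cancel e4
  · intro x b c
    apply rk1_pow_inj hz0
    rw [rk1_pow_add hz0]
    have e1 := hl x (b * c)
    have e2 := hl x b
    have e3 := hl x c
    have hc : ∀ m : ℕ, ∀ t : P, (w : P) ^ m * t = t * (w : P) ^ m := by
      intro m t
      exact ((Subgroup.mem_center_iff.1 (Subgroup.pow_mem _ hzc m)) t).symm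
    have e4 : (w : P) ^ (l x (b * c)).val * ((b * c : B) : P) =
        (w : P) ^ (l x b).val * (w : P) ^ (l x c).val * ((b * c : B) : P) := by
      rw [← e1]
      push_cast
      calc x * ((b : P) * c) * x⁻¹ = (x * b * x⁻¹) * (x * c * x⁻¹) := by group
        _ = ((w : P) ^ (l x b).val * b) * ((w : P) ^ (l x c).val * c) := by rw [e2, e3]
        _ = (w : P) ^ (l x b).val * (w : P) ^ (l x c).val * (b * c) := by
            rw [mul_assoc, ← mul_assoc (b : P), ← hc]
            simp only [mul_assoc]
    exact mul_right_cancel e4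
  · by_contra hcon
    push Not at hcon
    have hle : (⁅B, (⊤ : Subgroup P)⁆ : Subgroup P) ≤ ⊥ := by
      rw [Subgroup.commutator_le]
      intro b hb x _
      rw [Subgroup.mem_bot, commutatorElement_eq_one_iff_mul_comm]
      have := hl x ⟨b, hb⟩
      rw [hcon x ⟨b, hb⟩] at this
      simp only [ZMod.val_zero, pow_zero, one_mul] at this
      calc b * x = (x * b * x⁻¹) * x := by rw [this]
        _ = x * b := by group
    have h1 : (w : P) ∈ (⊥ : Subgroup P) := hle w.2
    rw [Subgroup.mem_bot] at h1
    apply hw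
    exact Subtype.ext h1

theorem rk1_lin (p : ℕ) [Fact p.Prime] (P : Type) [Group P] (M : Type) [AddCommGroup M]
    [Module (ZMod p) M] [Finite P] (Λ : M →ₗ[ZMod p] (P → ZMod p))
    (hΛ : ∀ (b : M) (x y : P), Λ b (x * y) = Λ b x + Λ b y) (h0 : ∃ b x, Λ b x ≠ 0) :
    ∃ (g : ℕ) (L : (Fin g → ZMod p) → M) (m : P → Fin g → ZMod p), g ≠ 0 ∧
      Nat.card (LinearMap.range Λ) = p ^ g ∧ (∀ u v, L (u + v) = L u + L v) ∧
      (∀ x u, Λ (L u) x = ∑ i, m x i * u i) ∧ (∀ u, Λ (L u) = 0 → u = 0) ∧
      (∀ x y, m (x * y) = m x + m y) ∧ Function.Surjective m := by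
  classical
  let g := Module.finrank (ZMod p) (LinearMap.range Λ)
  let bas : Module.Basis (Fin g) (ZMod p) (LinearMap.range Λ) := Module.finBasis _ _
  have hpre : ∀ i : Fin g, ∃ b : M, Λ b = (bas i : P → ZMod p) := fun i => (bas i).2
  choose bb hbb using hpre
  let Lin : (Fin g → ZMod p) →ₗ[ZMod p] M := Fintype.linearCombination (ZMod p) bb
  have hLin : ∀ u, Lin u = ∑ i, u i • bb i := fun u => by
    simp [Lin, Fintype.linearCombination_apply]
  have hΛL : ∀ u x, Λ (Lin u) x = ∑ i, Λ (bb i) x * u i := by
    intro u x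
    rw [hLin, map_sum, Finset.sum_apply]
    refine Finset.sum_congr rfl (fun i _ => ?_)
    rw [map_smul, Pi.smul_apply, smul_eq_mul, mul_comm]
  have hinj : ∀ u, Λ (Lin u) = 0 → u = 0 := by
    intro u hu
    have h1 : ∑ i, u i • bas i = 0 := by
      apply Subtype.ext
      rw [hLin, map_sum] at hu
      push_cast
      rw [← hu]
      refine Finset.sum_congr rfl (fun i _ => ?_)
      rw [map_smul, hbb]
    have := (Fintype.linearIndependent_iff.1 bas.linearIndependent) u h1
    funext i
    exact this i
  have hg0 : g ≠ 0 := by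
    intro h
    have h1 : LinearMap.range Λ = ⊥ := Submodule.finrank_eq_zero.1 h
    obtain ⟨b, x, hbx⟩ := h0
    rw [LinearMap.range_eq_bot.1 h1] at hbx
    exact hbx rfl
  have hone : ∀ b : M, Λ b 1 = 0 := by
    intro b
    have h2 := hΛ b 1 1
    rw [mul_one] at h2
    nth_rewrite 1 [← add_zero (Λ b 1)] at h2
    exact (add_left_cancel h2).symm
  refine ⟨g, fun u => Lin u, fun x i => Λ (bb i) x, hg0, ?_, fun u v => map_add _ _ _,
    ?_, ?_, ?_, ?_⟩
  · rw [Module.natCard_eq_pow_finrank (K := ZMod p), Nat.card_zmod]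
  · intro x u
    exact hΛL u x
  · exact hinj
  · intro x y
    funext i
    exact hΛ (bb i) x y
  · -- surjectivity
    let S0 : AddSubgroup (Fin g → ZMod p) :=
      { carrier := Set.range (fun x : P => fun i => Λ (bb i) x)
        zero_mem' := ⟨1, by
          funext i
          exact hone _⟩
        add_mem' := by
          rintro _ _ ⟨x, rfl⟩ ⟨y, rfl⟩
          exact ⟨x * y, by funext i; exact hΛ _ x y⟩
        neg_mem' := by
          rintro _ ⟨x, rfl⟩
          refine ⟨x⁻¹, ?_⟩
          funext i
          have h1 := hΛ (bb i) x x⁻¹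
          rw [mul_inv_cancel, hone] at h1
          exact (neg_eq_of_add_eq_zero_right h1.symm).symm }
    let S : Submodule (ZMod p) (Fin g → ZMod p) := AddSubgroup.toZModSubmodule p S0
    have hS : ∀ v, v ∈ S ↔ ∃ x : P, (fun i => Λ (bb i) x) = v := fun v => Iff.rfl
    by_cases hST : S = ⊤
    · intro v
      have : v ∈ S := by rw [hST]; trivial
      exact (hS v).1 this
    · exfalso
      obtain ⟨f, hf, hfS⟩ := Submodule.exists_le_ker_of_lt_top S (lt_top_iff_ne_top.2 hST)
      have hfe : ∀ v : Fin g → ZMod p, f v = ∑ i, v i * f (Pi.single i 1) := by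
        intro v
        conv_lhs => rw [← Finset.univ_sum_single v]
        rw [map_sum]
        refine Finset.sum_congr rfl (fun i _ => ?_)
        rw [← smul_eq_mul, ← map_smul]
        congr 1
        funext j
        by_cases h : j = i
        · subst h; simp
        · simp [h]
      apply hf
      have hu0 : (fun i => f (Pi.single i 1)) = 0 := by
        apply hinj
        funext x
        rw [hΛL]
        have hx : (fun i => Λ (bb i) x) ∈ S := (hS _).2 ⟨x, rfl⟩
        have := hfS hx
        rw [LinearMap.mem_ker, hfe] at this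
        exact this
      apply LinearMap.ext
      intro v
      rw [hfe]
      have h1 : ∀ i, f (Pi.single i 1) = 0 := fun i => congrFun hu0 i
      simp [h1]

theorem rk1_fq (p : ℕ) [Fact p.Prime] (k : Type u) [Field k] [CharP k p] [IsAlgClosed k]
    (g : ℕ) (hg : g ≠ 0) : ∃ κ : Fin g → k, (∀ i, κ i ^ p ^ g = κ i) ∧
      (∀ ψ : Fin g → ZMod p, ∑ i, ((ψ i).val : k) * κ i = 0 → ψ = 0) ∧
      (∀ c : k, c ^ p ^ g = c → ∃ a : Fin g → ZMod p, c = ∑ i, ((a i).val : k) * κ i) := by
  classical
  letI : Algebra (ZMod p) k := ZMod.algebra k p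
  let f : GaloisField p g →ₐ[ZMod p] k := IsAlgClosed.lift
  have finj : Function.Injective f := RingHom.injective (f : GaloisField p g →+* k)
  have hfr := GaloisField.finrank p hg
  let b := Module.finBasisOfFinrankEq (ZMod p) (GaloisField p g) hfr
  letI : Fintype (GaloisField p g) := Fintype.ofFinite _
  have hcard : Fintype.card (GaloisField p g) = p ^ g := by
    rw [← Nat.card_eq_fintype_card, GaloisField.card p g hg]
  have hsum : ∀ ψ : Fin g → ZMod p, ∑ i, ((ψ i).val : k) * f (b i) = f (∑ i, ψ i • b i) := by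
    intro ψ
    rw [map_sum]
    refine Finset.sum_congr rfl (fun i _ => ?_)
    rw [map_smul, Algebra.smul_def]
    congr 1
    rw [← map_natCast (algebraMap (ZMod p) k), ZMod.natCast_zmod_val]
  have hpow : ∀ x : GaloisField p g, f x ^ p ^ g = f x := by
    intro x
    rw [← map_pow, ← hcard, FiniteField.pow_card]
  refine ⟨fun i => f (b i), fun i => hpow _, ?_, ?_⟩
  · intro ψ hψ
    rw [hsum] at hψ
    have h0 : ∑ i, ψ i • b i = 0 := finj (by rw [hψ, map_zero])
    have := (Fintype.linearIndependent_iff.1 b.linearIndependent) ψ h0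
    funext i
    exact this i
  · intro c hc
    have hlt : 1 < p ^ g := Nat.one_lt_pow hg (Fact.out : p.Prime).one_lt
    have hne : (Polynomial.X ^ p ^ g - Polynomial.X : Polynomial k) ≠ 0 :=
      FiniteField.X_pow_card_sub_X_ne_zero k hlt
    have hroot : ∀ x : k, x ^ p ^ g = x →
        x ∈ (Polynomial.X ^ p ^ g - Polynomial.X : Polynomial k).roots.toFinset := by
      intro x hx
      rw [Multiset.mem_toFinset, Polynomial.mem_roots hne]
      simp [Polynomial.IsRoot, hx]
    have himg : Finset.univ.image f =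
        (Polynomial.X ^ p ^ g - Polynomial.X : Polynomial k).roots.toFinset := by
      apply Finset.eq_of_subset_of_card_le
      · intro x hx
        rw [Finset.mem_image] at hx
        obtain ⟨y, _, rfl⟩ := hx
        exact hroot _ (hpow y)
      · rw [Finset.card_image_of_injective _ finj, Finset.card_univ, hcard]
        refine (Multiset.toFinset_card_le _).trans ((Polynomial.card_roots' _).trans ?_)
        rw [FiniteField.X_pow_card_sub_X_natDegree_eq k hlt]
    have h1 := hroot c hc
    rw [← himg, Finset.mem_image] at h1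
    obtain ⟨y, _, hy⟩ := h1
    refine ⟨fun i => b.repr y i, ?_⟩
    rw [hsum, b.sum_repr, hy]


theorem rk1_grp (p : ℕ) [Fact p.Prime] (P : Type) [Group P] [Finite P] (B : Type) [CommGroup B]
    (hexp : ∀ b : B, b ^ p = 1) (l : P → B → ZMod p)
    (hl1 : ∀ x y b, l (x * y) b = l x b + l y b) (hl2 : ∀ x b c, l x (b * c) = l x b + l x c)
    (hl0 : ∃ x b, l x b ≠ 0) :
    ∃ (g : ℕ) (L : (Fin g → ZMod p) → B) (m : P → Fin g → ZMod p), g ≠ 0 ∧
      (∃ K : Subgroup B, (∀ b, b ∈ K ↔ ∀ x, l x b = 0) ∧ K.index = p ^ g) ∧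
      (∀ u v, L (u + v) = L u * L v) ∧ (∀ x u, l x (L u) = ∑ i, m x i * u i) ∧
      (∀ u, (∀ x, l x (L u) = 0) → u = 0) ∧
      (∀ x y, m (x * y) = m x + m y) ∧ Function.Surjective m := by
  classical
  have hpx : ∀ x : Additive B, p • x = 0 := fun x => hexp (Additive.toMul x)
  letI : Module (ZMod p) (Additive B) := AddCommGroup.zmodModule hpx
  have hone : ∀ x, l x 1 = 0 := by
    intro x
    have h2 := hl2 x 1 1
    rw [mul_one] at h2
    nth_rewrite 1 [← add_zero (l x 1)] at h2
    exact (add_left_cancel h2).symm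
  let Λ0 : Additive B →+ (P → ZMod p) :=
    { toFun := fun b x => l x (Additive.toMul b)
      map_zero' := by
        funext x
        exact hone x
      map_add' := fun a b => by
        funext x
        exact hl2 x _ _ }
  obtain ⟨g, L, m, hg, hc, hadd, h1, h2, h3, h4⟩ := rk1_lin p P (Additive B)
    (AddMonoidHom.toZModLinearMap p Λ0) (fun b x y => hl1 x y _) (by
      obtain ⟨x, b, hxb⟩ := hl0
      exact ⟨Additive.ofMul b, x, hxb⟩)
  refine ⟨g, fun u => Additive.toMul (L u), m, hg, ?_, ?_, h1, ?_, h3, h4⟩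
  · let φ : B →* Multiplicative (P → ZMod p) := 
      { toFun := fun b => Multiplicative.ofAdd (fun x => l x b)
        map_one' := by
          apply Multiplicative.toAdd.injective
          funext x
          exact hone x
        map_mul' := fun a b => by
          apply Multiplicative.toAdd.injective
          funext x
          exact hl2 x a b }
    refine ⟨φ.ker, ?_, ?_⟩
    · intro b
      rw [MonoidHom.mem_ker]
      constructor
      · intro h x
        exact congrFun (congrArg Multiplicative.toAdd h) x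
      · intro h
        apply Multiplicative.toAdd.injective
        funext x
        exact h x
    · rw [Subgroup.index_ker, ← hc]
      apply Nat.card_congr
      refine Equiv.subtypeEquiv Multiplicative.toAdd (fun a => ?_)
      constructor
      · rintro ⟨b, rfl⟩
        exact ⟨Additive.ofMul b, rfl⟩
      · rintro ⟨b, hb⟩
        exact ⟨Additive.toMul b, by
          apply Multiplicative.toAdd.injective
          exact hb⟩
  · intro u v
    exact congrArg Additive.toMul (hadd u v)
  · intro u hu
    exact h2 u (funext hu)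


/-- the nilpotent part of the matrix of conjugation -/
def rk1_E {p g : ℕ} (v : Fin g → ZMod p) : Matrix (Fin (g + 1)) (Fin (g + 1)) (ZMod p) :=
  fun i j => Fin.cases (Fin.cases 0 v j) (fun _ => 0) i

theorem rk1_E00 {p g : ℕ} (v : Fin g → ZMod p) : rk1_E v 0 0 = 0 := rfl
theorem rk1_E0s {p g : ℕ} (v : Fin g → ZMod p) (j : Fin g) : rk1_E v 0 j.succ = v j := rfl
theorem rk1_Es {p g : ℕ} (v : Fin g → ZMod p) (i : Fin g) (j : Fin (g + 1)) :
    rk1_E v i.succ j = 0 := rfl

theorem rk1_Eadd {p g : ℕ} (v w : Fin g → ZMod p) : rk1_E (v + w) = rk1_E v + rk1_E w := by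
  ext i j
  rw [Matrix.add_apply]
  refine Fin.cases ?_ (fun i => ?_) i
  · refine Fin.cases ?_ (fun j => ?_) j
    · simp only [rk1_E00, add_zero]
    · simp only [rk1_E0s, Pi.add_apply]
  · simp only [rk1_Es, add_zero]

theorem rk1_Emul {p g : ℕ} (v w : Fin g → ZMod p) : rk1_E v * rk1_E w = 0 := by
  ext i j
  rw [Matrix.mul_apply, Fin.sum_univ_succ]
  refine Fin.cases ?_ (fun i => ?_) i
  · simp [rk1_E00, rk1_Es]
  · simp [rk1_Es]

theorem rk1_mulVec {p g : ℕ} (v : Fin g → ZMod p) (u : Fin (g + 1) → ZMod p) :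
    (1 + rk1_E v).mulVec u = Fin.cons (u 0 + ∑ i, v i * u i.succ) (fun i => u i.succ) := by
  rw [Matrix.add_mulVec, Matrix.one_mulVec]
  funext i
  rw [Pi.add_apply, Matrix.mulVec, dotProduct, Fin.sum_univ_succ]
  refine Fin.cases ?_ (fun i => ?_) i
  · simp [rk1_E00, rk1_E0s]
  · simp [rk1_Es]

theorem st_RK1 : ST_RK1.{u} := by
  classical
  intro p hp k _ _ _ P _ _ hP B hab hexp hC
  obtain ⟨z0, l, hzc, hz0, hl, hl1, hl2, hl0⟩ := rk1_pair hP B hC
  letI : CommGroup B := { (inferInstance : Group B) with
    mul_comm := fun a b => Subtype.ext (hab a a.2 b b.2) }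
  obtain ⟨g, L, m, hg, ⟨K, hK, hKi⟩, hLadd, hlL, hinj, hmadd, hsurj⟩ :=
    rk1_grp p P B (fun b => Subtype.ext (hexp b b.2)) l hl1 hl2 hl0
  obtain ⟨κ, hκ1, hκ2, hκ3⟩ := rk1_fq p k g hg
  have hL0 : L 0 = 1 := by
    have h := hLadd 0 0
    rw [add_zero] at h
    exact (mul_eq_left.1 h.symm)
  have hcm : ∀ (n : ℕ) (t : P), z0 ^ n * t = t * z0 ^ n := by
    intro n t
    exact ((Subgroup.mem_center_iff.1 (Subgroup.pow_mem _ hzc n)) t).symm
  have hcenter : ∀ b : B, (b : P) ∈ Subgroup.center P ↔ ∀ x, l x b = 0 := by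
    intro b
    rw [Subgroup.mem_center_iff]
    constructor
    · intro h x
      have h2 := hl x b
      rw [h x, mul_inv_cancel_right] at h2
      have h3 : z0 ^ (l x b).val = z0 ^ (0 : ZMod p).val := by
        have h4 : z0 ^ (l x b).val * (b : P) = 1 * (b : P) := by rw [one_mul, ← h2]
        rw [mul_right_cancel h4, ZMod.val_zero, pow_zero]
      exact rk1_pow_inj hz0 h3
    · intro h x
      have h2 := hl x b
      rw [h x] at h2
      simp only [ZMod.val_zero, pow_zero, one_mul] at h2
      calc x * (b : P) = (x * (b : P) * x⁻¹) * x := by group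
        _ = _ := by rw [h2]
  let β : Multiplicative (Fin (g + 1) → ZMod p) →* P :=
    { toFun := fun u => z0 ^ ((Multiplicative.toAdd u) 0).val *
        (L (fun i => (Multiplicative.toAdd u) i.succ) : P)
      map_one' := by
        have h1 : (fun i : Fin g => (Multiplicative.toAdd
          (1 : Multiplicative (Fin (g + 1) → ZMod p))) i.succ) = 0 := rfl
        have h2 : (Multiplicative.toAdd
          (1 : Multiplicative (Fin (g + 1) → ZMod p))) 0 = 0 := rfl
        rw [h1, h2, hL0, ZMod.val_zero, pow_zero, one_mul]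
        rfl
      map_mul' := fun u v => by
        have h1 : (fun i : Fin g => (Multiplicative.toAdd (u * v)) i.succ) =
          (fun i : Fin g => (Multiplicative.toAdd u) i.succ) +
          (fun i : Fin g => (Multiplicative.toAdd v) i.succ) := rfl
        have h2 : (Multiplicative.toAdd (u * v)) 0 = (Multiplicative.toAdd u) 0 +
          (Multiplicative.toAdd v) 0 := rfl
        rw [h1, h2, hLadd, rk1_pow_add hz0]
        have h3 : ((L (fun i => (Multiplicative.toAdd u) i.succ) *
          L (fun i => (Multiplicative.toAdd v) i.succ) : B) : P) =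
          (L (fun i => (Multiplicative.toAdd u) i.succ) : P) *
          (L (fun i => (Multiplicative.toAdd v) i.succ) : P) := rfl
        rw [h3]
        have key : ∀ a b c d : P, c * b = b * c → a * c * (b * d) = a * b * (c * d) := by
          intro a b c d h
          calc a * c * (b * d) = a * (c * b) * d := by simp only [mul_assoc]
            _ = a * b * (c * d) := by rw [h]; simp only [mul_assoc]
        exact key _ _ _ _ (hcm _ _) }
  have hβ : ∀ u : Fin (g + 1) → ZMod p, β (Multiplicative.ofAdd u) =
    z0 ^ (u 0).val * (L (fun i => u i.succ) : P) := fun u => rfl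
  have hcast : ∀ a : ZMod p, ((a.val : ℕ) : k) = ZMod.castHom (dvd_refl p) k a := by
    intro a
    rw [ZMod.castHom_apply, ZMod.natCast_val]
  let e : Fin (g + 1) → k := Fin.cons 0 κ
  let z : Fin (g + 1) → k := Fin.cons 1 (fun _ => 0)
  let ι : P → k := fun x => ∑ i, ((m x i).val : k) * κ i
  have hm1 : m 1 = 0 := by
    have h := hmadd 1 1
    rw [mul_one] at h
    nth_rewrite 1 [← add_zero (m 1)] at h
    exact (add_left_cancel h).symm
  have hmat : ∀ (x : P) (f : Fin (g + 1) → k) (i : Fin (g + 1)),
      ∑ j, ((((1 : Matrix (Fin (g + 1)) (Fin (g + 1)) (ZMod p)) + rk1_E (m x)) i j).val : k) * f j =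
      f i + (if i = 0 then ∑ j, ((m x j).val : k) * f j.succ else 0) := by
    intro x f i
    have h1 : ∀ j, ((((1 : Matrix (Fin (g + 1)) (Fin (g + 1)) (ZMod p)) +
        rk1_E (m x)) i j).val : k) * f j = (if i = j then f j else 0) +
        ((rk1_E (m x) i j).val : k) * f j := by
      intro j
      rw [hcast, hcast, Matrix.add_apply, map_add, add_mul, Matrix.one_apply]
      congr 1
      by_cases hij : i = j
      · simp [hij]
      · simp [hij]
    rw [Finset.sum_congr rfl (fun j _ => h1 j), Finset.sum_add_distrib]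
    congr 1
    · simp
    · rw [Fin.sum_univ_succ]
      by_cases hi : i = 0
      · subst hi
        rw [if_pos rfl, rk1_E00, ZMod.val_zero, Nat.cast_zero, zero_mul, zero_add]
        rfl
      · obtain ⟨i', rfl⟩ := Fin.exists_succ_eq.2 hi
        rw [if_neg hi]
        simp [rk1_Es]
  refine ⟨g, g + 1, β, fun x => 1 + rk1_E (m x), e, z, ι, Nat.one_le_iff_ne_zero.2 hg, ?_, ?_⟩
  · rw [← hKi]
    have : (Subgroup.center P).subgroupOf B = K := by
      ext b
      rw [Subgroup.mem_subgroupOf, hK, hcenter]
    change ((Subgroup.center P).subgroupOf B).index = _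
    rw [this]
  · constructor
    · -- injectivity
      rw [injective_iff_map_eq_one]
      intro u hu
      have h1 : z0 ^ ((Multiplicative.toAdd u) 0).val *
        (L (fun i => (Multiplicative.toAdd u) i.succ) : P) = 1 := hu
      have h2 : (L (fun i => (Multiplicative.toAdd u) i.succ) : P) ∈ Subgroup.center P := by
        rw [← inv_mem_iff, ← eq_inv_of_mul_eq_one_left h1]
        exact Subgroup.pow_mem _ hzc _
      have h3 := hinj _ ((hcenter _).1 h2)
      rw [h3, hL0] at h1
      have h4 : z0 ^ ((Multiplicative.toAdd u) 0).val = z0 ^ (0 : ZMod p).val := by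
        rw [ZMod.val_zero, pow_zero]
        have h5 : z0 ^ ((Multiplicative.toAdd u) 0).val * 1 = 1 := h1
        rwa [mul_one] at h5
      have h5 := rk1_pow_inj hz0 h4
      apply Multiplicative.toAdd.injective
      funext i
      refine Fin.cases ?_ (fun i => ?_) i
      · exact h5
      · exact congrFun h3 i
    · -- conjugation
      intro x u
      rw [hβ, hβ, rk1_mulVec]
      simp only [Fin.cons_zero, Fin.cons_succ]
      rw [rk1_pow_add hz0]
      calc x * (z0 ^ (u 0).val * (L (fun i => u i.succ) : P)) * x⁻¹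
          = z0 ^ (u 0).val * (x * (L (fun i => u i.succ) : P) * x⁻¹) := by
            rw [← mul_assoc x, ← hcm]
            simp only [mul_assoc]
        _ = _ := by
            rw [hl x (L (fun i => u i.succ)), hlL]
            simp only [mul_assoc]
    · -- one
      have : rk1_E (0 : Fin g → ZMod p) = 0 := by
        have h := rk1_Eadd (0 : Fin g → ZMod p) 0
        rw [add_zero] at h
        nth_rewrite 1 [← add_zero (rk1_E (0 : Fin g → ZMod p))] at h
        exact (add_left_cancel h).symm
      rw [hm1, this, add_zero]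
    · -- mul
      intro x y
      rw [hmadd, rk1_Eadd, mul_add, add_mul, add_mul, rk1_Emul, one_mul, one_mul, mul_one,
        add_zero, add_assoc]
    · -- hull
      intro ψ h1 h2
      rw [Fin.sum_univ_succ] at h1 h2
      simp only [e, z, Fin.cons_zero, Fin.cons_succ, mul_zero, zero_add, mul_one,
        Finset.sum_const_zero, add_zero] at h1 h2
      have h3 := hκ2 (fun i => ψ i.succ) h1
      rw [hcast] at h2
      have h4 : ψ 0 = 0 := by
        apply (ZMod.castHom (dvd_refl p) k).injective
        rw [h2, map_zero]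
      funext i
      refine Fin.cases ?_ (fun i => ?_) i
      · exact h4
      · exact congrFun h3 i
    · -- ez
      intro x i
      rw [hmat]
      congr 1
      refine Fin.cases ?_ (fun i => ?_) i
      · simp [e, z, ι]
      · simp [z]
    · -- zz
      intro x i
      rw [hmat]
      refine Fin.cases ?_ (fun i => ?_) i
      · simp [z]
      · simp [z]
    · -- z0
      intro h
      have := congrFun h 0
      simp [z] at this
    · -- add
      intro x y
      simp only [ι]
      rw [← Finset.sum_add_distrib]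
      refine Finset.sum_congr rfl (fun i _ => ?_)
      rw [hmadd, hcast, hcast, hcast, Pi.add_apply, map_add, add_mul]
    · -- fq
      intro x
      simp only [ι]
      rw [sum_pow_char_pow]
      refine Finset.sum_congr rfl (fun i _ => ?_)
      rw [mul_pow, hκ1, hcast, ← map_pow, ZMod.pow_card_pow]
    · -- surj
      intro c hc
      obtain ⟨a, ha⟩ := hκ3 c hc
      obtain ⟨x, hx⟩ := hsurj a
      refine ⟨x, ?_⟩
      simp only [ι]
      rw [hx, ha]

end Pool.Agent.Helper21.DN
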